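import Pool.Agent.Work.TMLib.Lib2
import Pool.Agent.Work.TMLib.FP
import Mathlib

/-!
Natural numbers in binary: addition, and multiplication by small numbers, in polynomial time.
-/

namespace Pool.Agent.Work.MP_013ca9_lc

open Pool.Agent.Work.TMLib Polynomial

/-- Natural numbers represented by their binary digits. -/
structure BN where
  /-- the number -/
  val : ℕ

instance : DE BN := ⟨fun b => de b.val.bits⟩

theorem de_bn (b : BN) : de b = de b.val.bits := rfl

variable {α β γ : Type} [DE α] [DE β] [DE γ]

theorem PolyF.bn_bits {f : α → BN} (hf : PolyF f) : PolyF (fun a => (f a).val.bits) :=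
  PolyF.of_G hf.toG fun _ => rfl

theorem PolyF.bn_mk {f : α → ℕ} (hf : PolyF (fun a => (f a).bits)) :
    PolyF (fun a => (⟨f a⟩ : BN)) :=
  PolyF.of_G hf.toG fun _ => rfl

theorem addc_bits' (c : Bool) (n : ℕ) : addc c n.bits = (n + c.toNat).bits := by
  cases c
  · simp
  · simpa using addc_bits n

theorem bits_headD (n : ℕ) : n.bits.headD false = n.bodd := by
  induction n using Nat.binaryRec' with
  | zero => simp
  | bit b n hb _ =>
    rw [Nat.bits_append_bit n b hb]
    simp

theorem bits_tail (n : ℕ) : n.bits.tail = n.div2.bits := by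
  induction n using Nat.binaryRec' with
  | zero => simp
  | bit b n hb _ =>
    rw [Nat.bits_append_bit n b hb]
    simp

/-- Majority. -/
def maj (a b c : Bool) : Bool := (a && b) || (a && c) || (b && c)

/-- Addition of binary numbers with a carry. -/
def addb : Bool → List Bool → List Bool → List Bool
  | c, [], m => addc c m
  | c, a :: l, m => xor (xor a (m.headD false)) c :: addb (maj a (m.headD false) c) l m.tail

theorem addb_bits (a b : ℕ) (c : Bool) : addb c a.bits b.bits = (a + b + c.toNat).bits := by
  induction a using Nat.binaryRec' generalizing b c with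
  | zero =>
    simp only [Nat.zero_bits, addb, addc_bits', Nat.zero_add]
  | bit a0 a ha ih =>
    rw [Nat.bits_append_bit a a0 ha]
    simp only [addb, bits_headD, bits_tail]
    rw [ih]
    have h1 : Nat.bit a0 a + b + c.toNat =
        Nat.bit (xor (xor a0 b.bodd) c) (a + b.div2 + (maj a0 b.bodd c).toNat) := by
      conv_lhs => rw [← Nat.bit_bodd_div2 b]
      simp only [Nat.bit_val]
      cases a0 <;> cases b.bodd <;> cases c <;> simp [maj] <;> ring
    rw [h1, Nat.bits_append_bit]
    intro h2
    have h3 : a = 0 := by omega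
    have h4 : (maj a0 b.bodd c).toNat = 0 := by omega
    have h5 := ha h3
    subst h5
    revert h4
    cases b.bodd <;> cases c <;> simp [maj]

/-- The step of the fold computing the sum. -/
def addStep (s : Bool × List Bool × List Bool) (a : Bool) : Bool × List Bool × List Bool :=
  (maj a (s.2.1.headD false) s.1, s.2.1.tail, xor (xor a (s.2.1.headD false)) s.1 :: s.2.2)

theorem addb_fold (l : List Bool) (c : Bool) (m acc : List Bool) :
    (fun s : Bool × List Bool × List Bool => s.2.2.reverse ++ addc s.1 s.2.1)
      (l.foldl addStep (c, m, acc)) = acc.reverse ++ addb c l m := by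
  induction l generalizing c m acc with
  | nil => simp [addb]
  | cons a l ih =>
    simp only [List.foldl_cons] at ih ⊢
    rw [show addStep (c, m, acc) a = (maj a (m.headD false) c, m.tail,
      xor (xor a (m.headD false)) c :: acc) from rfl, ih]
    simp [addb]

@[fun_prop]
theorem PolyF.maj {f g h : α → Bool} (hf : PolyF f) (hg : PolyF g) (hh : PolyF h) :
    PolyF (fun a => MP_013ca9_lc.maj (f a) (g a) (h a)) := by
  have : PolyF (fun a => ((f a && g a) || (f a && h a)) || (g a && h a)) := by fun_prop
  exact this

theorem PolyF.addStep : PolyF (fun p : (List Bool × List Bool) × (Bool × List Bool × List Bool) × Bool =>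
    MP_013ca9_lc.addStep p.2.1 p.2.2) := by
  have : PolyF (fun p : (List Bool × List Bool) × (Bool × List Bool × List Bool) × Bool =>
      (MP_013ca9_lc.maj p.2.2 (p.2.1.2.1.headD false) p.2.1.1, p.2.1.2.1.tail,
        Bool.xor (Bool.xor p.2.2 (p.2.1.2.1.headD false)) p.2.1.1 :: p.2.1.2.2)) := by
    fun_prop
  exact this

theorem sz_tail_le {l : List Bool} : sz l.tail ≤ sz l := by
  cases l with
  | nil => simp
  | cons a l => simp; omega

theorem PolyF.addb : PolyF (fun p : List Bool × List Bool => MP_013ca9_lc.addb false p.1 p.2) := by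
  have h : PolyF (fun p : List Bool × List Bool =>
      p.1.foldl MP_013ca9_lc.addStep (false, p.2, [])) := by
    refine PolyF.foldl_add (l := fun p : List Bool × List Bool => p.1)
      (g := fun p => (false, p.2, [])) (h := fun _ s b => MP_013ca9_lc.addStep s b)
      (by fun_prop) (by fun_prop) PolyF.addStep 8 ?_
    rintro a ⟨c, m, acc⟩ b _
    have h1 := sz_bool_le (MP_013ca9_lc.maj b (m.headD false) c)
    have h2 := sz_bool_le (Bool.xor (Bool.xor b (m.headD false)) c)
    have h3 := sz_tail_le (l := m)
    simp only [MP_013ca9_lc.addStep, sz_pair, sz_cons, eval_ofNat]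
    omega
  have h2 : PolyF (fun s : Bool × List Bool × List Bool =>
      s.2.2.reverse ++ (bif s.1 then addc true s.2.1 else s.2.1)) := by
    have h3 : PolyF (fun s : Bool × List Bool × List Bool => addc true s.2.1) :=
      PolyF.comp PolyF.addc (g := fun s : Bool × List Bool × List Bool => s.2.1) (by fun_prop)
    fun_prop
  refine (PolyF.comp h2 h).congrF ?_
  rintro ⟨l, m⟩
  have h3 := addb_fold l false m []
  simp only [List.reverse_nil, List.nil_append] at h3
  rw [← h3]
  simp only
  congr 1
  cases (List.foldl MP_013ca9_lc.addStep (false, m, []) l).1 <;> simp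

theorem PolyF.bn_add {f g : α → BN} (hf : PolyF f) (hg : PolyF g) :
    PolyF (fun a => (⟨(f a).val + (g a).val⟩ : BN)) := by
  apply PolyF.bn_mk
  refine (PolyF.comp PolyF.addb (g := fun a => ((f a).val.bits, (g a).val.bits))
    ((PolyF.bn_bits hf).pair (PolyF.bn_bits hg))).congrF fun a => ?_
  simpa using addb_bits (f a).val (g a).val false

theorem sz_bits_le (l : List Bool) : sz l ≤ 4 * l.length + 1 := by
  induction l with
  | nil => simp
  | cons b l ih =>
    have := sz_bool_le b
    simp
    omega

theorem sz_bn (b : BN) : sz b = sz b.val.bits := rfl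

theorem sz_bn_le (b : BN) : sz b ≤ 4 * b.val.size + 1 := by
  rw [sz_bn, ← Nat.size_eq_bits_len]
  exact sz_bits_le _

theorem size_lt_sz_bn (b : BN) : b.val.size < sz b := by
  rw [sz_bn, ← Nat.size_eq_bits_len]
  exact length_lt_sz _

theorem size_mul_le (a b : ℕ) : (a * b).size ≤ a.size + b.size := by
  rcases Nat.eq_zero_or_pos b with rfl | hb
  · simp
  rw [Nat.size_le, pow_add]
  have h1 := Nat.lt_size_self a
  have h2 := Nat.lt_size_self b
  exact Nat.mul_lt_mul'' h1 h2

theorem size_le_self (a : ℕ) : a.size ≤ a := by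
  rw [Nat.size_le]
  exact Nat.lt_two_pow_self

theorem PolyF.bn_mul {f : α → BN} {g : α → ℕ} (hf : PolyF f) (hg : PolyF g) :
    PolyF (fun a => (⟨(f a).val * g a⟩ : BN)) := by
  obtain ⟨qf, hqf⟩ := hf.size
  obtain ⟨qg, hqg⟩ := hg.size
  have hh : PolyF (fun p : α × BN × Unit => (⟨p.2.1.val + (f p.1).val⟩ : BN)) := by
    refine PolyF.bn_add (f := fun p : α × BN × Unit => p.2.1) (by fun_prop) ?_
    exact PolyF.comp hf (g := fun p : α × BN × Unit => p.1) (by fun_prop)
  have key : ∀ (a : α) (j : ℕ), (fun s : BN => (⟨s.val + (f a).val⟩ : BN))^[j] ⟨0⟩ =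
      ⟨(f a).val * j⟩ := by
    intro a j
    induction j with
    | zero => rfl
    | succ j ih => rw [Function.iterate_succ_apply', ih]; rfl
  refine (PolyF.foldl (l := fun a => TMLib.units (g a)) (g := fun _ => (⟨0⟩ : BN))
    (h := fun a s _ => (⟨s.val + (f a).val⟩ : BN)) (by fun_prop) (by fun_prop) hh
    (4 * (qf + qg) + 1) ?_).congrF fun a => ?_
  · intro a j hj
    rw [show (TMLib.units (g a)).take j = TMLib.units j by
        simp at hj
        simp [TMLib.units, List.take_replicate]
        omega]
    rw [foldl_units (fun s : BN => (⟨s.val + (f a).val⟩ : BN)), key]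
    have h1 := sz_bn_le ⟨(f a).val * j⟩
    have h2 := size_mul_le (f a).val j
    have h3 := size_le_self j
    have h4 := size_lt_sz_bn (f a)
    have h5 := hqf a
    have h6 := hqg a
    simp only [length_units, sz_nat] at hj h6
    simp only [eval_add, eval_mul, eval_ofNat, eval_one]
    simp only at h1
    omega
  · rw [foldl_units (fun s : BN => (⟨s.val + (f a).val⟩ : BN)), key]

theorem foldl_mul (l : List ℕ) (s : BN) :
    l.foldl (fun (s : BN) b => (⟨s.val * b⟩ : BN)) s = ⟨s.val * l.prod⟩ := by
  induction l generalizing s with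
  | nil => simp
  | cons b l ih => simp [ih, mul_assoc]

theorem size_prod_le (l : List ℕ) : l.prod.size ≤ sz l := by
  induction l with
  | nil => simp
  | cons b l ih =>
    have h1 := size_mul_le b l.prod
    have h2 := size_le_self b
    simp only [List.prod_cons, sz_cons, sz_nat]
    omega

theorem PolyF.bn_prod {l : α → List ℕ} (hl : PolyF l) :
    PolyF (fun a => (⟨(l a).prod⟩ : BN)) := by
  obtain ⟨ql, hql⟩ := hl.size
  have hh : PolyF (fun p : α × BN × ℕ => (⟨p.2.1.val * p.2.2⟩ : BN)) :=
    PolyF.bn_mul (f := fun p : α × BN × ℕ => p.2.1) (by fun_prop) (by fun_prop)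
  refine (PolyF.foldl (l := l) (g := fun _ => (⟨1⟩ : BN))
    (h := fun _ s b => (⟨s.val * b⟩ : BN)) hl (by fun_prop) hh
    (4 * ql + 5) ?_).congrF fun a => ?_
  · intro a j _
    rw [foldl_mul]
    have h1 := sz_bn_le ⟨1 * ((l a).take j).prod⟩
    have h2 := size_prod_le ((l a).take j)
    have h3 : sz ((l a).take j) ≤ sz (l a) := by
      have := sz_append ((l a).take j) ((l a).drop j)
      rw [List.take_append_drop] at this
      have := sz_pos ((l a).drop j)
      omega
    have h4 := hql a
    simp only [one_mul] at h1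
    simp only [eval_add, eval_mul, eval_ofNat, one_mul]
    omega
  · rw [foldl_mul]
    simp

end Pool.Agent.Work.MP_013ca9_lc
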