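import Mathlib.Tactic
import Mathlib.Data.Nat.Choose.Multinomial
import Mathlib.Combinatorics.Enumerative.Partition.Basic
import Mathlib.Analysis.SpecialFunctions.Log.Basic
import Pool.Agent.Work.TMLib.Classes

/-!
Definitions: the triple uniform (Good-Turing) offline estimator, online estimators, regret, and
exact computability in polynomial time.
-/

namespace Pool.Agent.Work.MP_013ca9_lc

open Finset

/-- The number `m_r` of symbols of the alphabet `Fin d` occurring exactly `r` times in `x`. -/
def mult {d : ℕ} (x : List (Fin d)) (r : ℕ) : ℕ :=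
  (univ.filter fun i : Fin d => x.count i = r).card

/-- The triple uniform (Good-Turing) offline estimator `q_n(x)`, for `x` of length `n`. -/
def goodTuring {d : ℕ} (x : List (Fin d)) : ℚ :=
  (Nat.multinomial univ (fun i => x.count i) : ℚ)⁻¹ *
    (Nat.multinomial (range (x.length + 1)) (mult x) : ℚ)⁻¹ *
      (Fintype.card (Nat.Partition x.length) : ℚ)⁻¹

/-- `q` is an online estimator: it takes values in `[0,1]`, is `1` at the empty string, and is
time-consistent. -/
def TimeConsistent {d : ℕ} (q : List (Fin d) → ℚ) : Prop :=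
  (∀ x, 0 ≤ q x ∧ q x ≤ 1) ∧ q [] = 1 ∧ ∀ x, q x = ∑ a : Fin d, q (x ++ [a])

/-- The regret `R_n` of `q` against the triple uniform estimator: the maximum of
`ln (q_n(x) / q(x))` over all strings `x` of length `n`. -/
noncomputable def regret {d : ℕ} (q : List (Fin d) → ℚ) (n : ℕ) : ℝ :=
  ⨆ x : List.Vector (Fin d) n, Real.log ((goodTuring x.toList / q x.toList : ℚ) : ℝ)

/-- A fraction is given by the binary digits of its numerator and of its denominator. -/
def encFrac (p : ℕ × ℕ) : List (Bool ⊕ Bool) :=
  TMLib.encPair (p.1.bits, p.2.bits)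

/-- There is a polynomial-time Turing machine which on every input string `x` outputs the exact
value `q x`, as a fraction. -/
def ExactInPolyTime {d : ℕ} (q : List (Fin d) → ℚ) : Prop :=
  ∃ f : List (Fin d) → ℕ × ℕ, TMLib.PolyTime id encFrac f ∧
    ∀ x, (f x).2 ≠ 0 ∧ q x = (f x).1 / (f x).2

end Pool.Agent.Work.MP_013ca9_lc
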