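import Mathlib

/-!
Counting functions with prescribed fibre sizes.
-/

namespace Pool.Agent.Work.MP_013ca9_lc

open Finset

variable {α ι : Type*} [Fintype α] [DecidableEq α] [DecidableEq ι]

/-- The orbit of a function under permutations of its domain. -/
def orb (f : α → ι) : Finset (α → ι) := univ.image fun σ : Equiv.Perm α => f ∘ σ

theorem card_orb_le (f : α → ι) : (orb f).card ≤ (Fintype.card α).factorial := by
  unfold orb
  refine Finset.card_image_le.trans ?_
  rw [Finset.card_univ, Fintype.card_perm]

theorem card_orb_mul (f : α → ι) :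
    (orb f).card * ∏ i ∈ univ.image f, (univ.filter (fun a => f a = i)).card.factorial =
      (Fintype.card α).factorial := by
  have h1 : Fintype.card {g : Equiv.Perm α // f ∘ g = f} =
      ∏ i ∈ univ.image f, (univ.filter (fun a => f a = i)).card.factorial := by
    rw [DomMulAct.stabilizer_card']
    refine Finset.prod_congr rfl fun i _ => ?_
    rw [Fintype.card_subtype]
  rw [← h1, ← Fintype.card_perm, ← Finset.card_univ (α := Equiv.Perm α)]
  rw [Finset.card_eq_sum_card_image (fun σ : Equiv.Perm α => f ∘ σ) univ]
  rw [← smul_eq_mul, ← Finset.sum_const]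
  refine Finset.sum_congr rfl fun g hg => ?_
  obtain ⟨τ, _, rfl⟩ := Finset.mem_image.1 hg
  rw [Fintype.card_subtype]
  refine Finset.card_bij' (fun σ _ => σ * τ) (fun σ _ => σ * τ⁻¹) ?_ ?_ ?_ ?_
  · intro σ hσ
    simp only [mem_filter, mem_univ, true_and] at hσ ⊢
    funext a
    exact congrFun hσ (τ a)
  · intro σ hσ
    simp only [mem_filter, mem_univ, true_and] at hσ ⊢
    funext a
    have := congrFun hσ (τ⁻¹ a)
    simpa using this
  · intro σ _
    simp
  · intro σ _
    simp

theorem card_orb (f : α → ι) (s : Finset ι) (hs : ∀ a, f a ∈ s) :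
    (orb f).card = Nat.multinomial s (fun i => (univ.filter (fun a => f a = i)).card) := by
  have h1 := card_orb_mul f
  have h2 := Nat.multinomial_spec s (fun i => (univ.filter (fun a => f a = i)).card)
  have h3 : ∑ i ∈ s, (univ.filter (fun a => f a = i)).card = Fintype.card α := by
    rw [← Finset.card_univ]
    exact (Finset.card_eq_sum_card_fiberwise (fun a _ => hs a)).symm
  have h4 : ∏ i ∈ univ.image f, (univ.filter (fun a => f a = i)).card.factorial =
      ∏ i ∈ s, (univ.filter (fun a => f a = i)).card.factorial := by
    refine Finset.prod_subset ?_ ?_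
    · intro i hi
      obtain ⟨a, _, rfl⟩ := Finset.mem_image.1 hi
      exact hs a
    · intro i _ hi
      have : (univ.filter (fun a => f a = i)) = ∅ := by
        ext a
        simp only [mem_filter, mem_univ, true_and, notMem_empty, iff_false]
        intro h
        exact hi (Finset.mem_image.2 ⟨a, mem_univ _, h⟩)
      simp [this]
  rw [h3] at h2
  rw [h4] at h1
  have h5 : 0 < ∏ i ∈ s, (univ.filter (fun a => f a = i)).card.factorial :=
    Finset.prod_pos fun i _ => Nat.factorial_pos _
  apply Nat.eq_of_mul_eq_mul_right h5
  rw [h1, ← h2, mul_comm]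

theorem mem_orb_of_card_eq {f g : α → ι}
    (h : ∀ i, (univ.filter (fun a => f a = i)).card = (univ.filter (fun a => g a = i)).card) :
    g ∈ orb f := by
  have e : ∀ i, Nonempty ({a // g a = i} ≃ {a // f a = i}) := by
    intro i
    refine ⟨Fintype.equivOfCardEq ?_⟩
    rw [Fintype.card_subtype, Fintype.card_subtype, h]
  refine Finset.mem_image.2 ⟨Equiv.ofFiberEquiv fun i => (e i).some, mem_univ _, ?_⟩
  funext a
  exact Equiv.ofFiberEquiv_map _ a

theorem card_filter_of_mem_orb {f g : α → ι} (h : g ∈ orb f) (i : ι) :
    (univ.filter (fun a => f a = i)).card = (univ.filter (fun a => g a = i)).card := by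
  obtain ⟨σ, _, rfl⟩ := Finset.mem_image.1 h
  refine Finset.card_bij' (fun a _ => σ⁻¹ a) (fun a _ => σ a) ?_ ?_ ?_ ?_ <;> simp

theorem mem_orb_iff_multiset {f g : α → ι} :
    g ∈ orb f ↔ (univ : Finset α).val.map g = (univ : Finset α).val.map f := by
  constructor
  · intro h
    ext i
    rw [Multiset.count_map, Multiset.count_map]
    have := card_filter_of_mem_orb h i
    simp only [Finset.card, Finset.filter] at this
    simp only [eq_comm (a := i)]
    exact this.symm
  · intro h
    apply mem_orb_of_card_eq
    intro i
    have h2 := congrArg (Multiset.count i) h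
    rw [Multiset.count_map, Multiset.count_map] at h2
    simp only [eq_comm (a := i)] at h2
    simp only [Finset.card, Finset.filter]
    exact h2.symm

end Pool.Agent.Work.MP_013ca9_lc
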