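import Mathlib
import Pool.Agent.Work.MP_013ca9_lc.Defs
import Pool.Agent.Work.MP_013ca9_lc.Orbit

/-!
The total mass of the triple uniform estimator, and comparison with the Laplace rule.
-/

namespace Pool.Agent.Work.MP_013ca9_lc

open Finset

variable {n d : ℕ}

theorem ofSums_inj {s t : Multiset ℕ} {hs : s.sum = n} {ht : t.sum = n}
    (hc : Multiset.card s = Multiset.card t)
    (h : Nat.Partition.ofSums n s hs = Nat.Partition.ofSums n t ht) : s = t := by
  have h1 : s.filter (fun i => i ≠ 0) = t.filter (fun i => i ≠ 0) := congrArg Nat.Partition.parts h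
  have h2 : ∀ u : Multiset ℕ, u = u.filter (fun i => i ≠ 0) +
      Multiset.replicate (Multiset.card u - Multiset.card (u.filter (fun i => i ≠ 0))) 0 := by
    intro u
    have e1 := Multiset.filter_add_not (fun i => i ≠ 0) u
    have e2 : u.filter (fun i => ¬ i ≠ 0) = Multiset.replicate (u.count 0) 0 := by
      simp only [ne_eq, not_not]
      rw [← Multiset.filter_eq' u 0]
    have e3 : Multiset.card u = Multiset.card (u.filter (fun i => i ≠ 0)) + u.count 0 := by
      conv_lhs => rw [← e1, Multiset.card_add, e2, Multiset.card_replicate]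
    rw [e3, Nat.add_sub_cancel_left, ← e2]
    exact e1.symm
  rw [h2 s, h2 t, h1, hc]

/-- The numbers of occurrences of the symbols. -/
def cts (y : Fin n → Fin d) (i : Fin d) : ℕ := (univ.filter (fun j => y j = i)).card

theorem sum_cts (y : Fin n → Fin d) : ∑ i, cts y i = n := by
  have := (Finset.card_eq_sum_card_fiberwise (s := (univ : Finset (Fin n)))
    (t := (univ : Finset (Fin d))) (f := y) (fun a _ => mem_univ _)).symm
  simpa [cts] using this

theorem sum_map_univ (c : Fin d → ℕ) : ((univ : Finset (Fin d)).val.map c).sum = ∑ i, c i := rfl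

/-- The partition of `n` given by the numbers of occurrences. -/
def part (c : Fin d → ℕ) (hc : ∑ i, c i = n) : Nat.Partition n :=
  Nat.Partition.ofSums n ((univ : Finset (Fin d)).val.map c) hc

theorem mem_orb_of_part_eq {c c' : Fin d → ℕ} {hc : ∑ i, c i = n} {hc' : ∑ i, c' i = n}
    (h : part c' hc' = part c hc) : c' ∈ orb c := by
  rw [mem_orb_iff_multiset]
  exact ofSums_inj (by simp) h

theorem choose_le : (d + n - 1).choose n ≤ d.factorial * Fintype.card (Nat.Partition n) := by
  have h0 : Fintype.card (Sym (Fin d) n) = (d + n - 1).choose n := by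
    rw [Sym.card_sym_eq_choose, Fintype.card_fin]
  rw [← h0, ← Finset.card_univ]
  have hsum : ∀ s : Sym (Fin d) n, ∑ i, s.1.count i = n := by
    intro s
    have := Multiset.sum_count_eq_card (s := univ) (m := s.1) (fun a _ => mem_univ _)
    rw [this, s.2]
  set F : Sym (Fin d) n → Nat.Partition n := fun s => part (fun i => s.1.count i) (hsum s) with hF
  have h1 : (univ : Finset (Sym (Fin d) n)).card ≤
      d.factorial * ((univ : Finset (Sym (Fin d) n)).image F).card := by
    apply Finset.card_le_mul_card_image
    intro p hp
    obtain ⟨s0, _, rfl⟩ := Finset.mem_image.1 hp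
    have h2 : (univ.filter (fun s => F s = F s0)).card ≤ (orb (fun i => s0.1.count i)).card := by
      refine Finset.card_le_card_of_injOn (fun s i => s.1.count i) ?_ ?_
      · intro s hs
        simp only [coe_filter, mem_univ, true_and, Set.mem_ofPred_eq] at hs
        exact mem_orb_of_part_eq hs
      · intro s _ s' _ h
        apply Sym.coe_injective
        ext i
        exact congrFun h i
    refine h2.trans ((card_orb_le _).trans ?_)
    simp
  refine h1.trans (Nat.mul_le_mul_left _ ?_)
  rw [← Finset.card_univ]
  exact Finset.card_le_card (Finset.subset_univ _)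

theorem multinomial_orb {c c' : Fin d → ℕ} (h : c' ∈ orb c) :
    Nat.multinomial univ c' = Nat.multinomial univ c := by
  obtain ⟨σ, _, rfl⟩ := Finset.mem_image.1 h
  unfold Nat.multinomial
  congr 1
  · congr 1
    exact Equiv.sum_comp σ c
  · exact Equiv.prod_comp σ (fun i => (c i).factorial)

/-- The triple uniform estimator in terms of the numbers of occurrences. -/
noncomputable def gt (n : ℕ) (c : Fin d → ℕ) : ℚ :=
  (Nat.multinomial univ c : ℚ)⁻¹ * ((orb c).card : ℚ)⁻¹ * (Fintype.card (Nat.Partition n) : ℚ)⁻¹

theorem sum_gt_le : ∑ y : Fin n → Fin d, gt n (cts y) ≤ 1 := by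
  classical
  have hP : 0 < Fintype.card (Nat.Partition n) := Fintype.card_pos
  have hP' : (0 : ℚ) < Fintype.card (Nat.Partition n) := by exact_mod_cast hP
  set F : (Fin n → Fin d) → Nat.Partition n := fun y => part (cts y) (sum_cts y) with hF
  rw [← Finset.sum_fiberwise (s := univ) (g := F) (f := fun y => gt n (cts y))]
  have key : ∀ p : Nat.Partition n, ∑ y ∈ univ.filter (fun y => F y = p), gt n (cts y) ≤
      (Fintype.card (Nat.Partition n) : ℚ)⁻¹ := by
    intro p
    by_cases hp : ∃ y0, F y0 = p
    · obtain ⟨y0, rfl⟩ := hp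
      set c0 := cts y0 with hc0
      have hin : ∀ y ∈ univ.filter (fun y => F y = F y0), cts y ∈ orb c0 := by
        intro y hy
        simp only [mem_filter, mem_univ, true_and] at hy
        exact mem_orb_of_part_eq hy
      have horb : ∀ c ∈ orb c0, (orb c).card = (orb c0).card := by
        intro c hc
        have e1 := card_orb c (univ.image c ∪ univ.image c0) (fun a => by simp)
        have e2 := card_orb c0 (univ.image c ∪ univ.image c0) (fun a => by simp)
        rw [e1, e2]
        congr 1
        funext i
        exact (card_filter_of_mem_orb hc i).symm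
      have hcard : (univ.filter (fun y => F y = F y0)).card ≤
          Nat.multinomial univ c0 * (orb c0).card := by
        refine (Finset.card_le_mul_card_image (f := cts) _ (Nat.multinomial univ c0) ?_).trans
          (Nat.mul_le_mul_left _ (Finset.card_le_card ?_))
        · intro c hc
          obtain ⟨y1, hy1, rfl⟩ := Finset.mem_image.1 hc
          have e1 : Nat.multinomial univ c0 = (orb y1).card := by
            rw [card_orb y1 univ (fun a => mem_univ _), ← multinomial_orb (hin y1 hy1)]
            rfl
          rw [e1]
          apply Finset.card_le_card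
          intro y hy
          simp only [mem_filter] at hy
          apply mem_orb_of_card_eq
          intro i
          exact (congrFun hy.2 i).symm
        · intro c hc
          obtain ⟨y1, hy1, rfl⟩ := Finset.mem_image.1 hc
          exact hin y1 hy1
      have hval : ∀ y ∈ univ.filter (fun y => F y = F y0), gt n (cts y) = gt n c0 := by
        intro y hy
        unfold gt
        rw [multinomial_orb (hin y hy), horb _ (hin y hy)]
      rw [Finset.sum_congr rfl hval, Finset.sum_const, nsmul_eq_mul]
      unfold gt
      have m1 : (0 : ℚ) < Nat.multinomial univ c0 := by exact_mod_cast Nat.multinomial_pos _ _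
      have m2 : (0 : ℚ) < (orb c0).card := by
        have : (orb c0).Nonempty := ⟨c0, Finset.mem_image.2 ⟨1, mem_univ _, rfl⟩⟩
        exact_mod_cast Finset.card_pos.2 this
      have h3 : (((univ.filter (fun y => F y = F y0)).card : ℕ) : ℚ) ≤
          Nat.multinomial univ c0 * (orb c0).card := by exact_mod_cast hcard
      calc (((univ.filter (fun y => F y = F y0)).card : ℕ) : ℚ) *
            ((Nat.multinomial univ c0 : ℚ)⁻¹ * ((orb c0).card : ℚ)⁻¹ *
              (Fintype.card (Nat.Partition n) : ℚ)⁻¹)
          ≤ (Nat.multinomial univ c0 * (orb c0).card) *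
            ((Nat.multinomial univ c0 : ℚ)⁻¹ * ((orb c0).card : ℚ)⁻¹ *
              (Fintype.card (Nat.Partition n) : ℚ)⁻¹) := by
            apply mul_le_mul_of_nonneg_right h3
            positivity
        _ = (Fintype.card (Nat.Partition n) : ℚ)⁻¹ := by
            field_simp
    · have : univ.filter (fun y => F y = p) = ∅ := by
        ext y
        simp only [mem_filter, mem_univ, true_and, notMem_empty, iff_false]
        intro h
        exact hp ⟨y, h⟩
      rw [this]
      simp
  calc ∑ p : Nat.Partition n, ∑ y ∈ univ.filter (fun y => F y = p), gt n (cts y)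
      ≤ ∑ p : Nat.Partition n, (Fintype.card (Nat.Partition n) : ℚ)⁻¹ :=
        Finset.sum_le_sum fun p _ => key p
    _ = 1 := by
        rw [Finset.sum_const, nsmul_eq_mul, Finset.card_univ]
        field_simp

theorem count_ofFn (y : Fin n → Fin d) (i : Fin d) : (List.ofFn y).count i = cts y i := by
  unfold cts
  rw [List.ofFn_eq_map, List.count, List.countP_map, List.countP_eq_length_filter]
  have : (univ.filter (fun j => y j = i)).card =
      ((List.finRange n).filter (fun j => decide (y j = i))).length := by
    rfl
  rw [this]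
  congr 1

theorem goodTuring_eq (x : List (Fin d)) :
    goodTuring x = gt x.length (fun i => x.count i) := by
  unfold goodTuring gt
  congr 2
  congr 2
  rw [card_orb (fun i => x.count i) (range (x.length + 1))
    (fun i => by simpa [Nat.lt_succ_iff] using List.count_le_length)]
  rfl

theorem sum_goodTuring_le : ∑ y : Fin n → Fin d, goodTuring (List.ofFn y) ≤ 1 := by
  refine le_trans (le_of_eq ?_) (sum_gt_le (n := n) (d := d))
  refine Finset.sum_congr rfl fun y _ => ?_
  rw [goodTuring_eq]
  have h1 : (fun i => (List.ofFn y).count i) = cts y := funext fun i => count_ofFn y i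
  rw [h1, List.length_ofFn]

/-- The Laplace rule. -/
def lap (x : List (Fin d)) : ℚ :=
  (∏ i : Fin d, ((x.count i).factorial : ℚ)) / (d.ascFactorial x.length : ℕ)

theorem lap_pos (hd : 0 < d) (x : List (Fin d)) : 0 < lap x := by
  unfold lap
  have : 0 < d.ascFactorial x.length := by
    obtain ⟨e, rfl⟩ : ∃ e, d = e + 1 := ⟨d - 1, by omega⟩
    exact Nat.ascFactorial_pos _ _
  positivity

theorem lap_nil : lap ([] : List (Fin d)) = 1 := by
  simp [lap]

theorem sum_count (x : List (Fin d)) : ∑ i, x.count i = x.length := by
  have := Multiset.sum_count_eq_card (s := univ) (m := (x : Multiset (Fin d)))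
    (fun a _ => mem_univ _)
  simpa using this

theorem lap_sum (hd : 0 < d) (x : List (Fin d)) : lap x = ∑ a : Fin d, lap (x ++ [a]) := by
  have h1 : ∀ a : Fin d, (∏ i : Fin d, (((x ++ [a]).count i).factorial : ℚ)) =
      (x.count a + 1) * ∏ i : Fin d, ((x.count i).factorial : ℚ) := by
    intro a
    rw [← Finset.mul_prod_erase univ _ (mem_univ a), ← Finset.mul_prod_erase univ
      (fun i => ((x.count i).factorial : ℚ)) (mem_univ a)]
    have h2 : ∏ i ∈ univ.erase a, (((x ++ [a]).count i).factorial : ℚ) =
        ∏ i ∈ univ.erase a, ((x.count i).factorial : ℚ) := by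
      refine Finset.prod_congr rfl fun i hi => ?_
      have : i ≠ a := Finset.ne_of_mem_erase hi
      have h3 : [a].count i = 0 := by
        rw [List.count_singleton]
        simp [this.symm]
      rw [List.count_append, h3, Nat.add_zero]
    rw [h2]
    have h4 : (x ++ [a]).count a = x.count a + 1 := by
      rw [List.count_append, List.count_singleton_self]
    rw [h4, Nat.factorial_succ]
    push_cast
    ring
  unfold lap
  have hpos : 0 < d.ascFactorial x.length := by
    obtain ⟨e, rfl⟩ : ∃ e, d = e + 1 := ⟨d - 1, by omega⟩
    exact Nat.ascFactorial_pos _ _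
  have h5 : ∀ a : Fin d, (x ++ [a]).length = x.length + 1 := by
    intro a
    simp
  simp only [h1, h5, Nat.ascFactorial_succ]
  rw [← Finset.sum_div, ← Finset.sum_mul]
  have h6 : ∑ a : Fin d, ((x.count a : ℚ) + 1) = d + x.length := by
    rw [Finset.sum_add_distrib]
    have := sum_count x
    have h7 : ∑ a : Fin d, (x.count a : ℚ) = x.length := by exact_mod_cast this
    rw [h7]
    simp
    ring
  rw [h6]
  have hd' : (0 : ℚ) < d := by exact_mod_cast hd
  have hpos' : (0 : ℚ) < d.ascFactorial x.length := by exact_mod_cast hpos
  push_cast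
  field_simp

theorem goodTuring_le (hd : 0 < d) (x : List (Fin d)) :
    goodTuring x ≤ d.factorial * lap x := by
  rw [goodTuring_eq]
  unfold gt lap
  set n := x.length with hn
  have h1 := choose_le (n := n) (d := d)
  have h2 := Nat.ascFactorial_eq_factorial_mul_choose' d n
  have h3 := Nat.multinomial_spec univ (fun i => x.count i)
  rw [sum_count] at h3
  have hpos : 0 < d.ascFactorial x.length := by
    obtain ⟨e, rfl⟩ : ∃ e, d = e + 1 := ⟨d - 1, by omega⟩
    exact Nat.ascFactorial_pos _ _
  have m1 : (0 : ℚ) < Nat.multinomial univ (fun i => x.count i) := by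
    exact_mod_cast Nat.multinomial_pos _ _
  have m2 : (1 : ℚ) ≤ (orb (fun i => x.count i)).card := by
    have : (orb (fun i => x.count i)).Nonempty := ⟨_, Finset.mem_image.2 ⟨1, mem_univ _, rfl⟩⟩
    exact_mod_cast Finset.card_pos.2 this
  have hP : 0 < Fintype.card (Nat.Partition n) := Fintype.card_pos
  have hP' : (0 : ℚ) < Fintype.card (Nat.Partition n) := by exact_mod_cast hP
  have hA : (0 : ℚ) < d.ascFactorial n := by exact_mod_cast hpos
  have hpr : (0 : ℚ) < ∏ i : Fin d, ((x.count i).factorial : ℚ) := by positivity
  have h3' : (∏ i : Fin d, ((x.count i).factorial : ℚ)) *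
      Nat.multinomial univ (fun i => x.count i) = n.factorial := by
    exact_mod_cast h3
  have h2' : (d.ascFactorial n : ℚ) = n.factorial * (d + n - 1).choose n := by
    exact_mod_cast h2
  have h1' : ((d + n - 1).choose n : ℚ) ≤ d.factorial * Fintype.card (Nat.Partition n) := by
    exact_mod_cast h1
  have hn' : (0 : ℚ) < n.factorial := by exact_mod_cast Nat.factorial_pos n
  have hc : (0 : ℚ) < (d + n - 1).choose n := by
    rw [h2'] at hA
    exact (pos_iff_pos_of_mul_pos hA).1 hn'
  have step1 : (Nat.multinomial univ (fun i => x.count i) : ℚ)⁻¹ *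
      ((orb (fun i => x.count i)).card : ℚ)⁻¹ * (Fintype.card (Nat.Partition n) : ℚ)⁻¹ ≤
      (Nat.multinomial univ (fun i => x.count i) : ℚ)⁻¹ * 1 *
        (Fintype.card (Nat.Partition n) : ℚ)⁻¹ := by
    have : ((orb (fun i => x.count i)).card : ℚ)⁻¹ ≤ 1 := inv_le_one_of_one_le₀ m2
    gcongr
  refine step1.trans ?_
  rw [h2', ← h3']
  rw [mul_one, ← mul_inv, ← mul_div_assoc, inv_eq_one_div]
  rw [div_le_div_iff₀ (by positivity) (by positivity)]
  have : (1 : ℚ) * ((∏ i : Fin d, ((x.count i).factorial : ℚ)) *
      Nat.multinomial univ (fun i => x.count i) * (d + n - 1).choose n) ≤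
      (∏ i : Fin d, ((x.count i).factorial : ℚ)) *
      Nat.multinomial univ (fun i => x.count i) *
        (d.factorial * Fintype.card (Nat.Partition n)) := by
    rw [one_mul]
    gcongr
  refine this.trans (le_of_eq ?_)
  ring

theorem goodTuring_nonneg (x : List (Fin d)) : 0 ≤ goodTuring x := by
  unfold goodTuring
  positivity

end Pool.Agent.Work.MP_013ca9_lc
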