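import Mathlib
import Pool.Agent.Work.MP_013ca9_lc.Mass

/-!
The online estimator: a finite mixture continued with the Laplace rule.
-/

namespace Pool.Agent.Work.MP_013ca9_lc

open Finset

variable {d : ℕ}

/-- Sum of `p` over all extensions by `k` further symbols. -/
def ext : ℕ → (List (Fin d) → ℚ) → List (Fin d) → ℚ
  | 0, p, x => p x
  | k + 1, p, x => ∑ a : Fin d, ext k p (x ++ [a])

theorem ext_eq_sum (k : ℕ) (p : List (Fin d) → ℚ) (x : List (Fin d)) :
    ext k p x = ∑ y : Fin k → Fin d, p (x ++ List.ofFn y) := by
  induction k generalizing x with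
  | zero => simp [ext]
  | succ k ih =>
    simp only [ext, ih]
    rw [← (Fin.consEquiv (fun _ : Fin (k + 1) => Fin d)).sum_comp, Fintype.sum_prod_type]
    refine Finset.sum_congr rfl fun a _ => Finset.sum_congr rfl fun y _ => ?_
    congr 1
    simp [Fin.consEquiv, List.ofFn_succ]

theorem ext_add (j k : ℕ) (p : List (Fin d) → ℚ) (x : List (Fin d)) :
    ext (j + k) p x = ext j (ext k p) x := by
  induction j generalizing x with
  | zero => simp [ext]
  | succ j ih =>
    rw [Nat.succ_add]
    simp only [ext]
    exact Finset.sum_congr rfl fun a _ => ih _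

theorem ext_mono {k : ℕ} {p p' : List (Fin d) → ℚ} {x : List (Fin d)}
    (h : ∀ z : List (Fin d), z.length = x.length + k → x <+: z → p z ≤ p' z) :
    ext k p x ≤ ext k p' x := by
  rw [ext_eq_sum, ext_eq_sum]
  exact Finset.sum_le_sum fun y _ => h _ (by simp) (List.prefix_append _ _)

theorem ext_congr {k : ℕ} {p p' : List (Fin d) → ℚ} {x : List (Fin d)}
    (h : ∀ z : List (Fin d), z.length = x.length + k → x <+: z → p z = p' z) :
    ext k p x = ext k p' x := by
  rw [ext_eq_sum, ext_eq_sum]
  exact Finset.sum_congr rfl fun y _ => h _ (by simp) (List.prefix_append _ _)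

theorem ext_sum {ι : Type*} (s : Finset ι) (k : ℕ) (p : ι → List (Fin d) → ℚ)
    (x : List (Fin d)) :
    ext k (fun z => ∑ i ∈ s, p i z) x = ∑ i ∈ s, ext k (p i) x := by
  simp only [ext_eq_sum]
  exact Finset.sum_comm

theorem ext_mul (k : ℕ) (c : ℚ) (p : List (Fin d) → ℚ) (x : List (Fin d)) :
    ext k (fun z => c * p z) x = c * ext k p x := by
  simp only [ext_eq_sum, Finset.mul_sum]

theorem ext_add' (k : ℕ) (p p' : List (Fin d) → ℚ) (x : List (Fin d)) :
    ext k (fun z => p z + p' z) x = ext k p x + ext k p' x := by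
  simp only [ext_eq_sum, Finset.sum_add_distrib]

theorem ext_lap (hd : 0 < d) (k : ℕ) (x : List (Fin d)) : ext k lap x = lap x := by
  induction k generalizing x with
  | zero => rfl
  | succ k ih =>
    simp only [ext, ih]
    exact (lap_sum hd x).symm

theorem ext_pos {k : ℕ} {p : List (Fin d) → ℚ} (hd : 0 < d) (hp : ∀ z, 0 < p z)
    (x : List (Fin d)) : 0 < ext k p x := by
  rw [ext_eq_sum]
  haveI : NeZero d := ⟨hd.ne'⟩
  exact Finset.sum_pos (fun y _ => hp _) ⟨fun _ => 0, mem_univ _⟩

/-- Weights. -/
def wt (s : ℕ) : ℚ := 1 / ((s + 1) * (s + 2))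

theorem wt_pos (s : ℕ) : 0 < wt s := by unfold wt; positivity

theorem sum_wt (N : ℕ) : ∑ s ∈ range (N + 1), wt s + 1 / (N + 2) = 1 := by
  induction N with
  | zero => norm_num [wt]
  | succ N ih =>
    rw [Finset.sum_range_succ]
    have : wt (N + 1) + 1 / ((N + 1 : ℕ) + 2 : ℚ) = 1 / (N + 2) := by
      unfold wt
      push_cast
      field_simp
      ring
    rw [add_assoc, this]
    exact ih

/-- The density, with respect to the Laplace rule, of the mixture. -/
def dens (N : ℕ) (z : List (Fin d)) : ℚ :=
  1 / (N + 2) + ∑ s ∈ range (N + 1), wt s * (goodTuring (z.take s) / lap (z.take s))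

theorem dens_pos (hd : 0 < d) (N : ℕ) (z : List (Fin d)) : 0 < dens N z := by
  unfold dens
  have : 0 ≤ ∑ s ∈ range (N + 1), wt s * (goodTuring (z.take s) / lap (z.take s)) := by
    refine Finset.sum_nonneg fun s _ => ?_
    have h1 := wt_pos s
    have h2 := goodTuring_nonneg (z.take s)
    have h3 := lap_pos hd (z.take s)
    positivity
  positivity

/-- The unnormalised mixture. -/
def mixU (N : ℕ) (z : List (Fin d)) : ℚ := lap z * dens N z

theorem mixU_pos (hd : 0 < d) (N : ℕ) (z : List (Fin d)) : 0 < mixU N z :=
  mul_pos (lap_pos hd z) (dens_pos hd N z)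

/-- The online estimator. -/
def onl (N : ℕ) (x : List (Fin d)) : ℚ :=
  ext (N - x.length) (mixU N) x / ext N (mixU N) ([] : List (Fin d))

theorem mass_pos (hd : 0 < d) (N : ℕ) : 0 < ext N (mixU N) ([] : List (Fin d)) :=
  ext_pos hd (mixU_pos hd N) _

theorem ext_goodTuring_nil_le (s : ℕ) : ext s goodTuring ([] : List (Fin d)) ≤ 1 := by
  rw [ext_eq_sum]
  simpa using sum_goodTuring_le (n := s) (d := d)

theorem ext_ratio (hd : 0 < d) (N s : ℕ) (hs : s ≤ N) :
    ext N (fun z : List (Fin d) => lap z * (goodTuring (z.take s) / lap (z.take s))) [] =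
      ext s goodTuring ([] : List (Fin d)) := by
  obtain ⟨k, rfl⟩ : ∃ k, N = s + k := ⟨N - s, by omega⟩
  rw [ext_add]
  apply ext_congr
  intro x hx _
  simp only [List.length_nil, Nat.zero_add] at hx
  have h1 : ext k (fun z : List (Fin d) => lap z * (goodTuring (z.take s) / lap (z.take s))) x =
      ext k (fun z => (goodTuring x / lap x) * lap z) x := by
    apply ext_congr
    rintro z _ ⟨y, rfl⟩
    have : (x ++ y).take s = x := by
      rw [← hx]
      simp
    rw [this]
    ring
  rw [h1, ext_mul, ext_lap hd]
  have := lap_pos hd x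
  field_simp

theorem mass_le (hd : 0 < d) (N : ℕ) : ext N (mixU N) ([] : List (Fin d)) ≤ 1 := by
  have h1 : ext N (mixU N) ([] : List (Fin d)) =
      1 / (N + 2) * ext N lap ([] : List (Fin d)) + ∑ s ∈ range (N + 1), wt s * ext N
        (fun z : List (Fin d) => lap z * (goodTuring (z.take s) / lap (z.take s))) [] := by
    rw [← ext_mul]
    simp only [← ext_mul]
    rw [← ext_sum, ← ext_add']
    apply ext_congr
    intro z _ _
    unfold mixU dens
    rw [mul_add, Finset.mul_sum]
    congr 1
    · ring
    · refine Finset.sum_congr rfl fun s _ => ?_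
      ring
  rw [h1, ext_lap hd, lap_nil, mul_one, add_comm]
  refine le_trans ?_ (le_of_eq (sum_wt N))
  apply add_le_add _ le_rfl
  refine Finset.sum_le_sum fun s hs => ?_
  rw [ext_ratio hd N s (by simpa [Nat.lt_succ_iff] using hs)]
  have := ext_goodTuring_nil_le (d := d) s
  have := wt_pos s
  nlinarith

theorem onl_pos (hd : 0 < d) (N : ℕ) (x : List (Fin d)) : 0 < onl N x :=
  div_pos (ext_pos hd (mixU_pos hd N) _) (mass_pos hd N)

theorem onl_nil (hd : 0 < d) (N : ℕ) : onl N ([] : List (Fin d)) = 1 := by
  unfold onl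
  exact div_self (mass_pos hd N).ne'

theorem dens_append (N : ℕ) (x : List (Fin d)) (hx : N ≤ x.length) (y : List (Fin d)) :
    dens N (x ++ y) = dens N x := by
  unfold dens
  congr 1
  refine Finset.sum_congr rfl fun s hs => ?_
  rw [List.take_append_of_le_length (by
    have := Finset.mem_range.1 hs
    omega)]

theorem onl_sum (hd : 0 < d) (N : ℕ) (x : List (Fin d)) :
    onl N x = ∑ a : Fin d, onl N (x ++ [a]) := by
  unfold onl
  rw [← Finset.sum_div]
  congr 1
  by_cases h : x.length < N
  · obtain ⟨k, hk⟩ : ∃ k, N - x.length = k + 1 := ⟨N - x.length - 1, by omega⟩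
    rw [hk]
    simp only [ext]
    refine Finset.sum_congr rfl fun a _ => ?_
    have : N - (x ++ [a]).length = k := by
      simp
      omega
    rw [this]
  · have h1 : N - x.length = 0 := by omega
    have h2 : ∀ a : Fin d, N - (x ++ [a]).length = 0 := by
      intro a
      simp
      omega
    simp only [h1, h2, ext]
    unfold mixU
    simp only [dens_append N x (by omega)]
    rw [← Finset.sum_mul, ← lap_sum hd]

theorem onl_le_one (hd : 0 < d) (N : ℕ) (x : List (Fin d)) : onl N x ≤ 1 := by
  induction x using List.reverseRecOn with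
  | nil => rw [onl_nil hd]
  | append_singleton x a ih =>
    refine le_trans ?_ ih
    rw [onl_sum hd N x]
    exact Finset.single_le_sum (f := fun a => onl N (x ++ [a]))
      (fun b _ => (onl_pos hd N _).le) (mem_univ a)

theorem ext_le_onl (hd : 0 < d) (N : ℕ) (x : List (Fin d)) :
    ext (N - x.length) (mixU N) x ≤ onl N x := by
  unfold onl
  rw [le_div_iff₀ (mass_pos hd N)]
  have h1 := mass_le hd N
  have h2 : 0 < ext (N - x.length) (mixU N) x := ext_pos hd (mixU_pos hd N) _
  nlinarith

theorem goodTuring_le_onl_short (hd : 0 < d) (N : ℕ) (x : List (Fin d)) (hx : x.length ≤ N) :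
    goodTuring x ≤ (x.length + 2) ^ 2 * onl N x := by
  have h1 := ext_le_onl hd N x
  have h2 : wt x.length * goodTuring x ≤ ext (N - x.length) (mixU N) x := by
    have h3 : ext (N - x.length) (fun z => (wt x.length * (goodTuring x / lap x)) * lap z) x ≤
        ext (N - x.length) (mixU N) x := by
      apply ext_mono
      rintro z _ ⟨y, rfl⟩
      unfold mixU dens
      rw [mul_comm]
      have h4 := lap_pos hd (x ++ y)
      apply mul_le_mul_of_nonneg_left _ h4.le
      have h5 : wt x.length * (goodTuring x / lap x) ≤ ∑ s ∈ range (N + 1),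
          wt s * (goodTuring ((x ++ y).take s) / lap ((x ++ y).take s)) := by
        have h6 := Finset.single_le_sum (s := range (N + 1))
          (f := fun s => wt s * (goodTuring ((x ++ y).take s) / lap ((x ++ y).take s)))
          (fun s _ => by
            have h1 := wt_pos s
            have h2 := goodTuring_nonneg ((x ++ y).take s)
            have h3 := lap_pos hd ((x ++ y).take s)
            positivity) (Finset.mem_range.2 (Nat.lt_succ_of_le hx))
        simpa using h6
      have : (0 : ℚ) < 1 / (N + 2) := by positivity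
      linarith
    rw [ext_mul, ext_lap hd] at h3
    refine le_trans (le_of_eq ?_) h3
    have := lap_pos hd x
    field_simp
  have h3 : goodTuring x ≤ (x.length + 1) * (x.length + 2) * onl N x := by
    have h4 := h2.trans h1
    unfold wt at h4
    rw [div_mul_eq_mul_div, one_mul, div_le_iff₀ (by positivity)] at h4
    linarith
  refine h3.trans ?_
  have := onl_pos hd N x
  have h5 : ((x.length : ℚ) + 1) * (x.length + 2) ≤ (x.length + 2) ^ 2 := by nlinarith
  exact mul_le_mul_of_nonneg_right h5 this.le

theorem goodTuring_le_onl_long (hd : 0 < d) (N : ℕ) (hN : d.factorial ≤ N) (x : List (Fin d))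
    (hx : N ≤ x.length) : goodTuring x ≤ (x.length + 2) ^ 2 * onl N x := by
  have h1 := ext_le_onl hd N x
  have h2 : 1 / (N + 2) * lap x ≤ ext (N - x.length) (mixU N) x := by
    rw [show N - x.length = 0 by omega]
    simp only [ext]
    unfold mixU dens
    have h4 := lap_pos hd x
    rw [mul_comm]
    apply mul_le_mul_of_nonneg_left _ h4.le
    have : 0 ≤ ∑ s ∈ range (N + 1), wt s * (goodTuring (x.take s) / lap (x.take s)) := by
      refine Finset.sum_nonneg fun s _ => ?_
      have h1 := wt_pos s
      have h2 := goodTuring_nonneg (x.take s)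
      have h3 := lap_pos hd (x.take s)
      positivity
    linarith
  have h3 := goodTuring_le hd x
  have h4 : lap x ≤ (N + 2) * onl N x := by
    have h5 := h2.trans h1
    rw [div_mul_eq_mul_div, one_mul, div_le_iff₀ (by positivity)] at h5
    linarith
  have h5 : (d.factorial : ℚ) ≤ x.length := by exact_mod_cast hN.trans hx
  have h6 : (N : ℚ) ≤ x.length := by exact_mod_cast hx
  have h7 := onl_pos hd N x
  calc goodTuring x ≤ d.factorial * lap x := h3
    _ ≤ (x.length + 2) * ((x.length + 2) * onl N x) := by
      have h8 := lap_pos hd x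
      have h9 : lap x ≤ (x.length + 2) * onl N x := h4.trans (by gcongr)
      have h10 : (d.factorial : ℚ) ≤ x.length + 2 := by linarith
      exact mul_le_mul h10 h9 h8.le (by positivity)
    _ = (x.length + 2) ^ 2 * onl N x := by ring

theorem goodTuring_le_onl (hd : 0 < d) (x : List (Fin d)) :
    goodTuring x ≤ (x.length + 2) ^ 2 * onl d.factorial x := by
  rcases le_total x.length d.factorial with h | h
  · exact goodTuring_le_onl_short hd _ x h
  · exact goodTuring_le_onl_long hd _ le_rfl x h

theorem onl_consistent (hd : 0 < d) (N : ℕ) : TimeConsistent (d := d) (onl N) :=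
  ⟨fun x => ⟨(onl_pos hd N x).le, onl_le_one hd N x⟩, onl_nil hd N, onl_sum hd N⟩

theorem goodTuring_pos (x : List (Fin d)) : 0 < goodTuring x := by
  unfold goodTuring
  have h1 : (0 : ℚ) < Nat.multinomial univ (fun i => x.count i) := by
    exact_mod_cast Nat.multinomial_pos _ _
  have h2 : (0 : ℚ) < Nat.multinomial (range (x.length + 1)) (mult x) := by
    exact_mod_cast Nat.multinomial_pos _ _
  have hP : 0 < Fintype.card (Nat.Partition x.length) := Fintype.card_pos
  have hP' : (0 : ℚ) < Fintype.card (Nat.Partition x.length) := by exact_mod_cast hP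
  positivity

theorem regret_le (hd : 0 < d) (n : ℕ) :
    regret (d := d) (onl d.factorial) n ≤ 2 * Real.log (n + 2) := by
  haveI : NeZero d := ⟨hd.ne'⟩
  haveI : Nonempty (List.Vector (Fin d) n) := ⟨List.Vector.replicate n 0⟩
  unfold regret
  apply ciSup_le
  intro x
  have h1 := goodTuring_le_onl hd x.toList
  have h2 := onl_pos hd d.factorial x.toList
  have h3 := goodTuring_pos x.toList
  have h4 : ((goodTuring x.toList / onl d.factorial x.toList : ℚ) : ℝ) ≤ ((n : ℝ) + 2) ^ 2 := by
    have h5 : goodTuring x.toList / onl d.factorial x.toList ≤ ((n : ℚ) + 2) ^ 2 := by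
      rw [div_le_iff₀ h2]
      simpa using h1
    exact_mod_cast h5
  have h5 : (0 : ℝ) < ((goodTuring x.toList / onl d.factorial x.toList : ℚ) : ℝ) := by
    exact_mod_cast div_pos h3 h2
  have h6 := Real.log_le_log h5 h4
  rw [Real.log_pow] at h6
  exact_mod_cast h6

/-- The correction factor at the strings of length at most `N`. -/
def rho (N : ℕ) (y : List (Fin d)) : ℚ := onl N y / lap y

theorem onl_eq (hd : 0 < d) (N : ℕ) (x : List (Fin d)) :
    onl N x = rho N (x.take N) * lap x := by
  unfold rho
  rcases le_total x.length N with h | h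
  · rw [List.take_of_length_le h]
    have := lap_pos hd x
    field_simp
  · have h1 : N - x.length = 0 := by omega
    have h2 : N - (x.take N).length = 0 := by
      simp
      omega
    unfold onl
    rw [h1, h2]
    simp only [ext]
    unfold mixU
    have h3 := dens_append N (x.take N) (by simp; omega) (x.drop N)
    rw [List.take_append_drop] at h3
    rw [h3]
    have := lap_pos hd (x.take N)
    field_simp

end Pool.Agent.Work.MP_013ca9_lc
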