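import Pool.Agent.Work.MP_013ca9_lc.Bin
import Pool.Agent.Work.MP_013ca9_lc.Mix

/-!
The online estimator is computable in polynomial time.
-/

namespace Pool.Agent.Work.MP_013ca9_lc

open Pool.Agent.Work.TMLib Polynomial

variable {α β γ : Type} [DE α] [DE β] [DE γ] {d : ℕ}

theorem PolyF.finVal {f : α → Fin d} (hf : PolyF f) : PolyF (fun a => (f a).val) :=
  PolyF.of_G hf.toG fun _ => rfl

/-- Selection between finitely many functions. -/
theorem PolyF.finCase [Inhabited β] {f : α → Fin d} {g : Fin d → α → β} (hf : PolyF f)
    (hg : ∀ i, PolyF (g i)) : PolyF (fun a => g (f a) a) := by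
  have key : ∀ k ≤ d, PolyF (fun a => if (f a).val < k then g (f a) a else default) := by
    intro k
    induction k with
    | zero => intro _; simpa using PolyF.const default
    | succ k ih =>
      intro hk
      have h1 := ih (by omega)
      have h2 : PolyF (fun a => if (f a).val = k then g ⟨k, hk⟩ a else
          (if (f a).val < k then g (f a) a else default)) :=
        PolyF.ite (by have := PolyF.finVal hf; fun_prop) (hg _) h1
      refine h2.congrF fun a => ?_
      by_cases h3 : (f a).val = k
      · have h4 : f a = ⟨k, hk⟩ := Fin.ext h3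
        have h5 : (f a).val < k + 1 := by omega
        rw [if_pos h3, if_pos h5, h4]
      · by_cases h4 : (f a).val < k
        · rw [if_neg h3, if_pos h4, if_pos (by omega)]
        · rw [if_neg h3, if_neg h4, if_neg (by omega)]
  refine (key d le_rfl).congrF fun a => ?_
  rw [if_pos (f a).isLt]

/-- Every function of the first `N` symbols. -/
theorem PolyF.table [Inhabited β] (N : ℕ) (hd : 0 < d) (tab : List (Fin d) → β) :
    PolyF (fun x : List (Fin d) => tab (x.take N)) := by
  induction N generalizing tab with
  | zero => simpa using PolyF.const (tab [])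
  | succ N ih =>
    have h1 : PolyF (fun x : List (Fin d) => tab ((x.headD ⟨0, hd⟩) :: x.tail.take N)) := by
      refine PolyF.finCase (f := fun x : List (Fin d) => x.headD ⟨0, hd⟩)
        (g := fun i x => tab (i :: x.tail.take N)) (by fun_prop) (fun i => ?_)
      exact PolyF.comp (ih (fun y => tab (i :: y))) (g := fun x : List (Fin d) => x.tail)
        (by fun_prop)
    have h2 : PolyF (fun x : List (Fin d) => bif x.isEmpty then tab [] else
        tab ((x.headD ⟨0, hd⟩) :: x.tail.take N)) :=
      PolyF.cond (by fun_prop) (by fun_prop) h1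
    refine h2.congrF fun x => ?_
    cases x <;> simp

/-- The factors of the numerator of the Laplace rule. -/
def numL (x : List (Fin d)) : List ℕ :=
  (List.finRange d).flatMap fun i => (List.range (x.count i)).map fun j => j + 1

/-- The factors of the denominator of the Laplace rule. -/
def denL (x : List (Fin d)) : List ℕ := (List.range x.length).map fun j => d + j

theorem PolyF.count : PolyF (fun p : List (Fin d) × Fin d => p.1.count p.2) := by
  have h : PolyF (fun p : List (Fin d) × Fin d =>
      (p.1.filter (fun a => decide (a.val = p.2.val))).length) := by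
    refine PolyF.length (PolyF.filter (l := fun p : List (Fin d) × Fin d => p.1)
      (f := fun p a => decide (a.val = p.2.val)) (by fun_prop) ?_)
    have h1 : PolyF (fun q : (List (Fin d) × Fin d) × Fin d => q.2.val) :=
      PolyF.finVal (by fun_prop)
    have h2 : PolyF (fun q : (List (Fin d) × Fin d) × Fin d => q.1.2.val) :=
      PolyF.finVal (by fun_prop)
    fun_prop
  refine h.congrF fun p => ?_
  rw [List.count, List.countP_eq_length_filter]
  congr 1
  apply List.filter_congr
  intro a _
  rw [Bool.eq_iff_iff]
  simp [Fin.ext_iff]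

theorem PolyF.numL : PolyF (MP_013ca9_lc.numL (d := d)) := by
  unfold MP_013ca9_lc.numL
  refine PolyF.flatMap (l := fun _ : List (Fin d) => List.finRange d)
    (f := fun x i => (List.range (x.count i)).map fun j => j + 1) (by fun_prop) ?_
  have h := PolyF.count (d := d)
  refine PolyF.map (l := fun p : List (Fin d) × Fin d => List.range (p.1.count p.2))
    (f := fun _ j => j + 1) (by fun_prop) (by fun_prop)

theorem PolyF.denL : PolyF (MP_013ca9_lc.denL (d := d)) := by
  unfold MP_013ca9_lc.denL
  exact PolyF.map (l := fun x : List (Fin d) => List.range x.length)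
    (f := fun _ j => d + j) (by fun_prop) (by fun_prop)

theorem prod_range_map (n : ℕ) : ((List.range n).map fun j => j + 1).prod = n.factorial := by
  induction n with
  | zero => rfl
  | succ n ih =>
    rw [List.range_succ, List.map_append, List.prod_append, ih, Nat.factorial_succ]
    simp [mul_comm]

theorem prod_numL (x : List (Fin d)) : (numL x).prod = ∏ i : Fin d, (x.count i).factorial := by
  unfold numL
  rw [List.flatMap, List.prod_flatten, List.map_map]
  have : ((List.finRange d).map (List.prod ∘ fun i => (List.range (x.count i)).map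
      fun j => j + 1)) = (List.finRange d).map fun i => (x.count i).factorial := by
    apply List.map_congr_left
    intro i _
    exact prod_range_map _
  rw [this]
  rfl

theorem prod_denL (x : List (Fin d)) : (denL x).prod = d.ascFactorial x.length := by
  unfold denL
  generalize x.length = n
  induction n with
  | zero => rfl
  | succ n ih =>
    rw [List.range_succ, List.map_append, List.prod_append, ih, Nat.ascFactorial_succ]
    simp [mul_comm]

/-- The output of the algorithm. -/
def alg (N : ℕ) (x : List (Fin d)) : ℕ × ℕ :=
  (((rho N (x.take N)).num.toNat :: numL x).prod, ((rho N (x.take N)).den :: denL x).prod)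

theorem alg_spec (hd : 0 < d) (N : ℕ) (x : List (Fin d)) :
    (alg N x).2 ≠ 0 ∧ onl N x = (alg N x).1 / (alg N x).2 := by
  have h1 := onl_eq hd N x
  have h2 : 0 < rho N (x.take N) := div_pos (onl_pos hd N _) (lap_pos hd _)
  set r := rho N (x.take N) with hr
  have h3 : (r.num.toNat : ℚ) = r.num := by
    have : ((r.num.toNat : ℤ) : ℚ) = (r.num : ℚ) := by
      rw [Int.toNat_of_nonneg (Rat.num_nonneg.2 h2.le)]
    exact_mod_cast this
  have h4 : r = r.num / r.den := (Rat.num_div_den r).symm
  have hpos : 0 < d.ascFactorial x.length := by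
    obtain ⟨e, rfl⟩ : ∃ e, d = e + 1 := ⟨d - 1, by omega⟩
    exact Nat.ascFactorial_pos _ _
  have hden : r.den ≠ 0 := r.den_nz
  constructor
  · show (r.den :: denL x).prod ≠ 0
    rw [List.prod_cons, prod_denL]
    exact Nat.mul_ne_zero hden hpos.ne'
  · show onl N x = (((r.num.toNat :: numL x).prod : ℕ) : ℚ) / (((r.den :: denL x).prod : ℕ) : ℚ)
    rw [List.prod_cons, List.prod_cons, prod_denL, prod_numL, h1]
    unfold lap
    push_cast
    rw [h3]
    conv_lhs => rw [h4]
    have hpos' : (d.ascFactorial x.length : ℚ) ≠ 0 := by exact_mod_cast hpos.ne'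
    have hden' : (r.den : ℚ) ≠ 0 := by exact_mod_cast hden
    field_simp

/-- The identification of the output alphabet with `Fin 4`. -/
def eOut : Bool ⊕ Bool ≃ Fin 4 :=
  (Equiv.sumCongr finTwoEquiv.symm finTwoEquiv.symm).trans finSumFinEquiv

theorem PolyF.alg (hd : 0 < d) (N : ℕ) : PolyF (fun x : List (Fin d) =>
    ((⟨(MP_013ca9_lc.alg N x).1⟩ : BN), (⟨(MP_013ca9_lc.alg N x).2⟩ : BN))) := by
  have h1 : PolyF (fun x : List (Fin d) => ((rho N (x.take N)).num.toNat,
      (rho N (x.take N)).den)) :=
    PolyF.table N hd (fun y => ((rho N y).num.toNat, (rho N y).den))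
  have h2 : PolyF (fun x : List (Fin d) =>
      (rho N (x.take N)).num.toNat :: MP_013ca9_lc.numL x) :=
    PolyF.cons (PolyF.fst h1) PolyF.numL
  have h3 : PolyF (fun x : List (Fin d) => (rho N (x.take N)).den :: MP_013ca9_lc.denL x) :=
    PolyF.cons (PolyF.snd h1) PolyF.denL
  exact (PolyF.bn_prod h2).pair (PolyF.bn_prod h3)

theorem exact_onl (hd : 0 < d) (N : ℕ) : ExactInPolyTime (d := d) (onl N) := by
  refine ⟨alg N, ?_, alg_spec hd N⟩
  have h1 := PolyF.alg hd N
  have h2 : PolyF (fun x : List (Fin d) =>
      ((alg N x).1.bits.map fun b => eOut (Sum.inl b)) ++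
        ((alg N x).2.bits.map fun b => eOut (Sum.inr b))) := by
    have ha : PolyF (fun x : List (Fin d) => (alg N x).1.bits) :=
      PolyF.bn_bits (f := fun x : List (Fin d) => (⟨(alg N x).1⟩ : BN)) (PolyF.fst h1)
    have hb : PolyF (fun x : List (Fin d) => (alg N x).2.bits) :=
      PolyF.bn_bits (f := fun x : List (Fin d) => (⟨(alg N x).2⟩ : BN)) (PolyF.snd h1)
    refine PolyF.append (PolyF.map ha (f := fun _ b => eOut (Sum.inl b)) ?_)
      (PolyF.map hb (f := fun _ b => eOut (Sum.inr b)) ?_)
    · have : PolyF (fun p : List (Fin d) × Bool =>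
          bif p.2 then eOut (Sum.inl true) else eOut (Sum.inl false)) := by fun_prop
      exact this.congrF fun p => by cases p.2 <;> rfl
    · have : PolyF (fun p : List (Fin d) × Bool =>
          bif p.2 then eOut (Sum.inr true) else eOut (Sum.inr false)) := by fun_prop
      exact this.congrF fun p => by cases p.2 <;> rfl
  refine PolyTime.of_PolyF (Equiv.refl (Fin d)) eOut h2 fun x => ?_
  simp [encFrac, encPair]
  rfl

end Pool.Agent.Work.MP_013ca9_lc
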