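import Pool.Agent.Work.MP_013ca9_lc.Comp

/-!
For every finite alphabet there is an online estimator, exactly computable in polynomial time,
whose regret against the triple uniform (Good-Turing) estimator is at most `2 ln (n + 2)`.
-/

namespace Pool.Agent.Work.MP_013ca9_lc.OnlineGoodTuring

open Pool.Agent.Work.MP_013ca9_lc

theorem result (d : ℕ) (hd : 2 ≤ d) :
    ∃ q : List (Fin d) → ℚ, TimeConsistent q ∧ (∀ x, 0 < q x) ∧
      (∀ n : ℕ, regret q n ≤ 2 * Real.log (n + 2)) ∧ ExactInPolyTime q :=
  have hd' : 0 < d := by omega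
  ⟨onl d.factorial, onl_consistent hd' _, onl_pos hd' _, regret_le hd', exact_onl hd' _⟩

end Pool.Agent.Work.MP_013ca9_lc.OnlineGoodTuring
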